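import Pool.Agent.W307.RS.Stm

set_option autoImplicit false

namespace Pool.Agent.W554.RS

open Pool.Agent.W307.RT Pool.Agent.W307.RS

theorem minim {A B : ℤ} (hmin : ∀ p : ℕ, p.Prime → ¬ ((p : ℤ) ^ 4 ∣ A ∧ (p : ℤ) ^ 6 ∣ B))
    (d n : ℤ) (hdn : IsCoprime d n) (hA : d ^ 4 ∣ n ^ 4 * A) (hB : d ^ 6 ∣ n ^ 6 * B) :
    d.natAbs = 1 := by
  by_contra hd
  obtain ⟨p, hp, hpd⟩ := Nat.exists_prime_and_dvd hd
  have hpd' : (p : ℤ) ∣ d := Int.natCast_dvd.mpr hpd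
  apply hmin p hp
  have hc : IsCoprime (p : ℤ) n := hdn.of_isCoprime_of_dvd_left hpd'
  constructor
  · exact (IsCoprime.pow hc : IsCoprime ((p : ℤ) ^ 4) (n ^ 4)).dvd_of_dvd_mul_left
      ((pow_dvd_pow_of_dvd hpd' 4).trans hA)
  · exact (IsCoprime.pow hc : IsCoprime ((p : ℤ) ^ 6) (n ^ 6)).dvd_of_dvd_mul_left
      ((pow_dvd_pow_of_dvd hpd' 6).trans hB)

theorem low {A B : ℤ} (hmin : ∀ p : ℕ, p.Prime → ¬ ((p : ℤ) ^ 4 ∣ A ∧ (p : ℤ) ^ 6 ∣ B))
    (V : WeierstrassCurve ℤ) (C : WeierstrassCurve.VariableChange ℚ)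
    (h : C • Sh A B = V.map (Int.castRingHom ℚ)) :
    (16 * (4 * A ^ 3 + 27 * B ^ 2)).natAbs ≤ 6 ^ 12 * V.Δ.natAbs := by
  set t : ℚ := ((C.u⁻¹ : ℚˣ) : ℚ) with ht
  have ht0 : t ≠ 0 := (C.u⁻¹).ne_zero
  have h4 : (V.c₄ : ℚ) = t ^ 4 * (-48 * A) := by
    have := congrArg WeierstrassCurve.c₄ h
    rw [WeierstrassCurve.variableChange_c₄, WeierstrassCurve.map_c₄] at this
    have e : (Sh A B).c₄ = -48 * A := by
      simp only [Sh, WeierstrassCurve.c₄, WeierstrassCurve.b₂, WeierstrassCurve.b₄]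
      ring
    rw [e, eq_intCast] at this
    exact this.symm
  have h6 : (V.c₆ : ℚ) = t ^ 6 * (-864 * B) := by
    have := congrArg WeierstrassCurve.c₆ h
    rw [WeierstrassCurve.variableChange_c₆, WeierstrassCurve.map_c₆] at this
    have e : (Sh A B).c₆ = -864 * B := by
      simp only [Sh, WeierstrassCurve.c₆, WeierstrassCurve.b₂, WeierstrassCurve.b₄,
        WeierstrassCurve.b₆]
      ring
    rw [e, eq_intCast] at this
    exact this.symm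
  have hD : (V.Δ : ℚ) = t ^ 12 * (-(16 * (4 * A ^ 3 + 27 * B ^ 2))) := by
    have := congrArg WeierstrassCurve.Δ h
    rw [WeierstrassCurve.variableChange_Δ, WeierstrassCurve.map_Δ] at this
    have e : (Sh A B).Δ = -(16 * (4 * A ^ 3 + 27 * B ^ 2)) := by
      simp only [Sh, WeierstrassCurve.Δ, WeierstrassCurve.b₂, WeierstrassCurve.b₄,
        WeierstrassCurve.b₆, WeierstrassCurve.b₈]
      ring
    rw [e, eq_intCast] at this
    exact this.symm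
  set w : ℚ := 6 * t with hw
  have hw0 : w ≠ 0 := mul_ne_zero (by norm_num) ht0
  have hd2 : w * ((w.den : ℤ) : ℚ) = (w.num : ℚ) := by
    exact_mod_cast Rat.mul_den_eq_num w
  have hcop : IsCoprime (w.den : ℤ) w.num := by
    rw [Int.isCoprime_iff_gcd_eq_one, Int.gcd_comm]
    exact w.reduced
  have e4 : w.num ^ 4 * A = (w.den : ℤ) ^ 4 * (-27 * V.c₄) := by
    have : (w.num : ℚ) ^ 4 * A = ((w.den : ℤ) : ℚ) ^ 4 * (-27 * V.c₄) := by
      rw [← hd2, h4, hw]; ring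
    exact_mod_cast this
  have e6 : w.num ^ 6 * B = (w.den : ℤ) ^ 6 * (-54 * V.c₆) := by
    have : (w.num : ℚ) ^ 6 * B = ((w.den : ℤ) : ℚ) ^ 6 * (-54 * V.c₆) := by
      rw [← hd2, h6, hw]; ring
    exact_mod_cast this
  have h1 : ((w.den : ℤ)).natAbs = 1 := minim hmin _ _ hcop ⟨_, e4⟩ ⟨_, e6⟩
  have h2 : (w.den : ℤ) = 1 := by omega
  rw [h2] at hd2
  have h3 : w.num ≠ 0 := Rat.num_ne_zero.2 hw0
  have hE : (6 : ℤ) ^ 12 * V.Δ = w.num ^ 12 * (-(16 * (4 * A ^ 3 + 27 * B ^ 2))) := by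
    have : (6 : ℚ) ^ 12 * V.Δ = (w.num : ℚ) ^ 12 * (-(16 * (4 * A ^ 3 + 27 * B ^ 2))) := by
      rw [← hd2, hD, hw]; push_cast; ring
    exact_mod_cast this
  have hN := congrArg Int.natAbs hE
  rw [Int.natAbs_mul, Int.natAbs_mul, Int.natAbs_neg, Int.natAbs_pow, Int.natAbs_pow] at hN
  have h6' : (6 : ℤ).natAbs = 6 := rfl
  rw [h6'] at hN
  rw [hN]
  exact Nat.le_mul_of_pos_left _ (pow_pos (Int.natAbs_pos.2 h3) 12)

theorem mdl : Pool.Agent.W307.RS.MDL := by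
  intro A B _ hmin
  have hne : (16 * (4 * A ^ 3 + 27 * B ^ 2)).natAbs ∈
      {n : ℕ | ∃ (V : WeierstrassCurve ℤ) (C : WeierstrassCurve.VariableChange ℚ),
        C • Sh A B = V.map (Int.castRingHom ℚ) ∧ n = V.Δ.natAbs} := by
    refine ⟨⟨0, 0, 0, A, B⟩, 1, ?_, ?_⟩
    · rw [one_smul]
      unfold Sh WeierstrassCurve.map
      simp
    · have : (⟨0, 0, 0, A, B⟩ : WeierstrassCurve ℤ).Δ = -(16 * (4 * A ^ 3 + 27 * B ^ 2)) := by
        simp only [WeierstrassCurve.Δ, WeierstrassCurve.b₂, WeierstrassCurve.b₄,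
          WeierstrassCurve.b₆, WeierstrassCurve.b₈]
        ring
      rw [this, Int.natAbs_neg]
  constructor
  · have h := Nat.sInf_mem ⟨_, hne⟩
    obtain ⟨V, C, h1, h2⟩ := h
    unfold mD
    rw [h2]
    exact low hmin V C h1
  · exact Nat.sInf_le hne

end Pool.Agent.W554.RS
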